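import Pool.Agent.Y456.GJ.Abs

set_option autoImplicit false

/-!
# The shift on rational functions
-/

open Polynomial

namespace Pool.Agent.Y456.GJ

/-- `p (X) ↦ p (X + 1)` -/
noncomputable def sp : ℂ[X] →+* ℂ[X] := compRingHom (X + 1)

theorem sp_apply (p : ℂ[X]) : sp p = p.comp (X + 1) := rfl

theorem eval_sp (p : ℂ[X]) (a : ℂ) : (sp p).eval a = p.eval (a + 1) := by
  rw [sp_apply, eval_comp, eval_add, eval_X, eval_one]

theorem natDegree_sp (p : ℂ[X]) : (sp p).natDegree = p.natDegree := by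
  rw [sp_apply, natDegree_comp]
  have : (X + 1 : ℂ[X]).natDegree = 1 := by
    rw [show (1 : ℂ[X]) = C 1 from rfl, natDegree_X_add_C]
  rw [this, mul_one]

theorem sp_inj : Function.Injective sp := by
  rw [injective_iff_map_eq_zero]
  intro p hp
  by_contra hne
  have h1 : ∀ a : ℂ, p.eval a = 0 := by
    intro a
    have h2 := eval_sp p (a - 1)
    rw [hp, eval_zero, sub_add_cancel] at h2
    exact h2.symm
  exact hne (Polynomial.funext fun a => by rw [h1 a, eval_zero])

theorem sp_nzd : nonZeroDivisors ℂ[X] ≤ (nonZeroDivisors ℂ[X]).comap sp := by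
  intro p hp
  rw [Submonoid.mem_comap, mem_nonZeroDivisors_iff_ne_zero]
  exact (map_ne_zero_iff sp sp_inj).2 (mem_nonZeroDivisors_iff_ne_zero.1 hp)

/-- the shift on rational functions -/
noncomputable def tau : RatFunc ℂ →+* RatFunc ℂ := IsLocalization.map (RatFunc ℂ) sp sp_nzd

theorem tau_alg (p : ℂ[X]) : tau (algebraMap ℂ[X] (RatFunc ℂ) p) = algebraMap ℂ[X] (RatFunc ℂ) (sp p) :=
  IsLocalization.map_eq _ _

theorem alg_inj : Function.Injective (algebraMap ℂ[X] (RatFunc ℂ)) := IsFractionRing.injective _ _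

theorem exists_rep (u : RatFunc ℂ) : ∃ p q : ℂ[X], IsCoprime p q ∧ q ≠ 0 ∧
    u * algebraMap ℂ[X] (RatFunc ℂ) q = algebraMap ℂ[X] (RatFunc ℂ) p := by
  refine ⟨u.num, u.denom, u.isCoprime_num_denom, u.denom_ne_zero, ?_⟩
  have h := RatFunc.num_div_denom u
  have h1 : algebraMap ℂ[X] (RatFunc ℂ) u.denom ≠ 0 := by
    rw [Ne, map_eq_zero_iff _ alg_inj]
    exact u.denom_ne_zero
  nth_rewrite 1 [← h]
  rw [div_mul_cancel₀ _ h1]

theorem no_up (q : ℂ[X]) (hq : q ≠ 0) (a : ℂ) (h : ∀ n : ℕ, q.eval (a + n) = 0) : False := by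
  apply hq
  refine Polynomial.eq_zero_of_infinite_isRoot q ?_
  refine Set.Infinite.mono (s := Set.range fun n : ℕ => a + n) ?_ ?_
  · rintro _ ⟨n, rfl⟩
    exact h n
  · apply Set.infinite_range_of_injective
    intro m n hmn
    simpa using hmn

theorem no_down (q : ℂ[X]) (hq : q ≠ 0) (a : ℂ) (h : ∀ n : ℕ, q.eval (a - n) = 0) : False := by
  apply hq
  refine Polynomial.eq_zero_of_infinite_isRoot q ?_
  refine Set.Infinite.mono (s := Set.range fun n : ℕ => a - n) ?_ ?_
  · rintro _ ⟨n, rfl⟩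
    exact h n
  · apply Set.infinite_range_of_injective
    intro m n hmn
    simpa using hmn

theorem coprime_eval {p q : ℂ[X]} (h : IsCoprime p q) (a : ℂ) (hq : q.eval a = 0) : p.eval a ≠ 0 := by
  obtain ⟨u, v, huv⟩ := h
  intro hp
  have := congrArg (fun r => Polynomial.eval a r) huv
  simp [hp, hq] at this

/-- the constants of the shift -/
theorem tau_const (u : RatFunc ℂ) (h : tau u = u) : ∃ c : ℂ, u = algebraMap ℂ[X] (RatFunc ℂ) (C c) := by
  obtain ⟨p, q, hpq, hq, hu⟩ := exists_rep u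
  have h1 : sp p * q = p * sp q := by
    apply alg_inj
    rw [map_mul, map_mul, ← hu, ← tau_alg, ← tau_alg, ← hu, map_mul, h]
    ring
  have h2 : ∀ a, q.eval a = 0 → q.eval (a + 1) = 0 := by
    intro a ha
    have h3 := congrArg (fun r => Polynomial.eval a r) h1
    simp only [eval_mul, eval_sp, ha, mul_zero] at h3
    exact (mul_eq_zero.1 h3.symm).resolve_left (coprime_eval hpq a ha)
  have h4 : ∀ a, q.eval a ≠ 0 := by
    intro a ha
    refine no_up q hq a fun n => ?_
    induction n with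
    | zero => simpa using ha
    | succ n ih =>
      have := h2 _ ih
      rw [← this]
      congr 1
      push_cast
      ring
  have h5 : q.degree = 0 := by
    by_contra hd
    obtain ⟨a, ha⟩ := IsAlgClosed.exists_root q hd
    exact h4 a ha
  obtain ⟨e, he⟩ : ∃ e, q = C e := ⟨_, eq_C_of_degree_eq_zero h5⟩
  have he0 : e ≠ 0 := by
    rintro rfl
    rw [map_zero] at he
    exact hq he
  have h6 : ∀ a, p.eval (a + 1) = p.eval a := by
    intro a
    have h3 := congrArg (fun r => Polynomial.eval a r) h1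
    simp only [eval_mul, eval_sp, he, eval_C] at h3
    exact mul_right_cancel₀ he0 h3
  have h7 : p = C (p.eval 0) := by
    rw [← sub_eq_zero]
    by_contra hne
    refine no_up _ hne 0 fun n => ?_
    rw [eval_sub, eval_C, sub_eq_zero]
    induction n with
    | zero => simp
    | succ n ih =>
      have h8 := h6 (0 + n)
      rw [ih] at h8
      have h9 : (0 : ℂ) + ((n + 1 : ℕ) : ℂ) = 0 + n + 1 := by
        push_cast
        ring
      rw [h9, h8]
  refine ⟨p.eval 0 / e, ?_⟩
  have h8 : algebraMap ℂ[X] (RatFunc ℂ) q ≠ 0 := by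
    rw [Ne, map_eq_zero_iff _ alg_inj]
    exact hq
  apply mul_right_cancel₀ h8
  rw [hu, ← map_mul, he, ← C_mul, div_mul_cancel₀ _ he0, ← h7]

theorem no_sol (p q S : ℂ[X]) (hq : q ≠ 0) (hpq : IsCoprime p q) (m : ℕ) (hm : m ≠ 0) (hS : S.eval 0 ≠ 0)
    (h : X ^ m * (sp p * q - p * sp q) = S * q * sp q) : False := by
  have hev : ∀ a : ℂ, a ^ m * (p.eval (a + 1) * q.eval a - p.eval a * q.eval (a + 1)) =
      S.eval a * q.eval a * q.eval (a + 1) := by
    intro a
    have h3 := congrArg (fun r => Polynomial.eval a r) h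
    simpa only [eval_mul, eval_sub, eval_pow, eval_X, eval_sp] using h3
  have hA : ∀ a, a ≠ 0 → q.eval a = 0 → q.eval (a + 1) = 0 := by
    intro a ha hqa
    have h1 := hev a
    rw [hqa] at h1
    have h2 : a ^ m * (p.eval a * q.eval (a + 1)) = 0 := by linear_combination -h1
    have h3 := (mul_eq_zero.1 h2).resolve_left (pow_ne_zero _ ha)
    exact (mul_eq_zero.1 h3).resolve_left (coprime_eval hpq a hqa)
  have hB : ∀ a, a ≠ 0 → q.eval (a + 1) = 0 → q.eval a = 0 := by
    intro a ha hqa
    have h1 := hev a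
    rw [hqa] at h1
    have h2 : a ^ m * (p.eval (a + 1) * q.eval a) = 0 := by linear_combination h1
    have h3 := (mul_eq_zero.1 h2).resolve_left (pow_ne_zero _ ha)
    exact (mul_eq_zero.1 h3).resolve_left (coprime_eval hpq _ hqa)
  have h0 := hev 0
  rw [zero_pow hm, zero_mul] at h0
  rcases mul_eq_zero.1 h0.symm with h1 | h1
  · have h2 := (mul_eq_zero.1 h1).resolve_left hS
    refine no_down q hq 0 fun n => ?_
    induction n with
    | zero => simpa using h2
    | succ n ih =>
      apply hB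
      · push_cast
        intro h3
        have : ((n + 1 : ℕ) : ℂ) = 0 := by
          push_cast
          linear_combination -h3
        exact absurd this (Nat.cast_ne_zero.2 (Nat.succ_ne_zero n))
      · have h5 : (0 : ℂ) - ((n + 1 : ℕ) : ℂ) + 1 = 0 - n := by
          push_cast
          ring
        rw [h5]
        exact ih
  · refine no_up q hq 1 fun n => ?_
    induction n with
    | zero => simpa using h1
    | succ n ih =>
      have h2 := hA (1 + n) (by
        intro h3
        have : ((n + 1 : ℕ) : ℂ) = 0 := by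
          push_cast
          linear_combination h3
        exact absurd this (Nat.cast_ne_zero.2 (Nat.succ_ne_zero n))) ih
      rw [← h2]
      congr 1
      push_cast
      ring

/-- the variable -/
noncomputable def XX : RatFunc ℂ := algebraMap ℂ[X] (RatFunc ℂ) X

theorem XX_ne : XX ≠ 0 := by
  rw [XX, Ne, map_eq_zero_iff _ alg_inj]
  exact X_ne_zero

/-- the additive condition -/
theorem H_add (w : ℕ) (l : Fin w → RatFunc ℂ) (l0 : RatFunc ℂ) (hl : ∀ i, tau (l i) = l i)
    (h : tau l0 + ∑ i, l i * (-(XX ^ ((i : ℕ) + 1))⁻¹) = l0) : l = 0 := by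
  classical
  choose c hc using fun i => tau_const (l i) (hl i)
  by_contra hne
  obtain ⟨i0, hi0⟩ : ∃ i, l i ≠ 0 := by
    by_contra hcon
    push Not at hcon
    exact hne (funext hcon)
  obtain ⟨k, hk, hkmax⟩ := Finset.exists_max_image (Finset.univ.filter fun i => l i ≠ 0) (fun i : Fin w => (i : ℕ))
    ⟨i0, by simpa using hi0⟩
  rw [Finset.mem_filter] at hk
  have hck : c k ≠ 0 := by
    intro h0
    apply hk.2
    rw [hc k, h0, map_zero, map_zero]
  obtain ⟨p, q, hpq, hq, hu⟩ := exists_rep l0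
  set S : ℂ[X] := ∑ i : Fin w, if (i : ℕ) ≤ k then C (c i) * X ^ ((k : ℕ) - i) else 0 with hS
  have hS0 : S.eval 0 = c k := by
    rw [hS, eval_finsetSum, Finset.sum_eq_single k]
    · simp
    · intro i _ hi
      split_ifs with h1
      · rw [eval_mul, eval_pow, eval_X, zero_pow, mul_zero]
        have : (i : ℕ) ≠ k := fun h2 => hi (Fin.ext h2)
        omega
      · simp
    · simp
  have hSX : algebraMap ℂ[X] (RatFunc ℂ) S = XX ^ ((k : ℕ) + 1) * (tau l0 - l0) := by
    have h1 : tau l0 - l0 = ∑ i, l i * (XX ^ ((i : ℕ) + 1))⁻¹ := by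
      have h2 : ∑ i, l i * (-(XX ^ ((i : ℕ) + 1))⁻¹) = -∑ i, l i * (XX ^ ((i : ℕ) + 1))⁻¹ := by
        rw [← Finset.sum_neg_distrib]
        exact Finset.sum_congr rfl fun i _ => by ring
      rw [h2] at h
      linear_combination h
    rw [h1, Finset.mul_sum, hS, map_sum]
    refine Finset.sum_congr rfl fun i _ => ?_
    split_ifs with h3
    · rw [map_mul, map_pow, ← hc i]
      have h4 : XX ^ ((k : ℕ) + 1) = XX ^ ((k : ℕ) - i) * XX ^ ((i : ℕ) + 1) := by
        rw [← pow_add]
        congr 1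
        omega
      rw [h4, ← XX]
      have h5 : XX ^ ((i : ℕ) + 1) ≠ 0 := pow_ne_zero _ XX_ne
      field_simp
    · have h6 : l i = 0 := by
        by_contra h7
        exact h3 (hkmax i (by simpa using h7))
      rw [h6, zero_mul, mul_zero, map_zero]
  refine no_sol p q S hq hpq ((k : ℕ) + 1) (Nat.succ_ne_zero _) (by rw [hS0]; exact hck) ?_
  apply alg_inj
  simp only [map_mul, map_sub, map_pow]
  rw [hSX, ← XX, ← hu, ← tau_alg, ← tau_alg, ← hu, map_mul]
  ring

/-- the multiplicative condition -/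
theorem H_mul (v : RatFunc ℂ) (e : ℕ) (hv : v ≠ 0) (h : tau v = XX ^ e * v) : e = 0 := by
  obtain ⟨p, q, hpq, hq, hu⟩ := exists_rep v
  have hp : p ≠ 0 := by
    rintro rfl
    rw [map_zero] at hu
    rcases mul_eq_zero.1 hu with h1 | h1
    · exact hv h1
    · rw [map_eq_zero_iff _ alg_inj] at h1
      exact hq h1
  have h1 : sp p * q = X ^ e * p * sp q := by
    apply alg_inj
    simp only [map_mul, map_pow]
    rw [← XX, ← hu, ← tau_alg, ← tau_alg, ← hu, map_mul, h]
    ring
  have h2 := congrArg natDegree h1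
  have hsp : sp p ≠ 0 := (map_ne_zero_iff sp sp_inj).2 hp
  have hsq : sp q ≠ 0 := (map_ne_zero_iff sp sp_inj).2 hq
  rw [natDegree_mul hsp hq, natDegree_mul (mul_ne_zero (pow_ne_zero _ X_ne_zero) hp) hsq,
    natDegree_mul (pow_ne_zero _ X_ne_zero) hp, natDegree_sp, natDegree_sp, natDegree_X_pow] at h2
  omega

end Pool.Agent.Y456.GJ
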