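import Mathlib

set_option autoImplicit false

/-!
# The jet of the logarithm of the Gamma function
-/

open Filter Topology

namespace Pool.Agent.Y456.GJ

/-- the complement of the poles -/
def Sd : Set ℂ := {z | ∀ m : ℕ, z ≠ -m}

theorem Sd_eq : Sd = (Set.range fun m : ℕ => -(m : ℂ))ᶜ := by
  ext z
  simp [Sd, eq_comm]

theorem isPreconnected_Sd : IsPreconnected Sd := by
  rw [Sd_eq]
  have h := (Set.countable_range fun m : ℕ => -(m : ℂ)).isPathConnected_compl_of_one_lt_rank
    (by rw [Complex.rank_real_complex]; exact Cardinal.one_lt_two)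
  exact h.isConnected.isPreconnected

theorem isOpen_Sd : IsOpen Sd := by
  have h : Sd = {z : ℂ | (Complex.Gamma z)⁻¹ ≠ 0} := by
    ext z
    constructor
    · intro hz
      exact inv_ne_zero (Complex.Gamma_ne_zero hz)
    · intro hz m hm
      apply hz
      rw [hm, Complex.Gamma_neg_nat_eq_zero, inv_zero]
  rw [h]
  exact isOpen_ne_fun Complex.differentiable_one_div_Gamma.continuous continuous_const

theorem add_one_mem {z : ℂ} (hz : z ∈ Sd) : z + 1 ∈ Sd := by
  intro m hm
  apply hz (m + 1)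
  push_cast
  linear_combination hm

theorem ne_zero_of_mem {z : ℂ} (hz : z ∈ Sd) : z ≠ 0 := by
  have := hz 0
  simpa using this

theorem add_ne_zero {z : ℂ} (hz : z ∈ Sd) (m : ℕ) : z + m ≠ 0 := by
  intro h
  apply hz m
  linear_combination h

theorem real_mem {t : ℝ} (ht : 0 < t) : (t : ℂ) ∈ Sd := by
  intro m hm
  have h := congrArg Complex.re hm
  simp only [Complex.ofReal_re, Complex.neg_re, Complex.natCast_re] at h
  have : (0 : ℝ) ≤ m := Nat.cast_nonneg m
  linarith

/-- the series `ζ (k, z)` -/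
noncomputable def zk (k : ℕ) (z : ℂ) : ℂ := ∑' m : ℕ, 1 / (z + m) ^ k

theorem tail_bound (k : ℕ) (z : ℂ) (M : ℕ) (R : ℝ) (hz : ‖z‖ ≤ R) (hM : 2 * R + 1 ≤ M) (m : ℕ) :
    ‖1 / (z + ((m + M : ℕ) : ℂ)) ^ k‖ ≤ 2 ^ k * (1 / ((m : ℝ) + 1) ^ k) := by
  have h0 : (0 : ℝ) ≤ R := (norm_nonneg z).trans hz
  have h1 : ((m : ℝ) + 1) / 2 ≤ ‖z + ((m + M : ℕ) : ℂ)‖ := by
    have h2 : ‖((m + M : ℕ) : ℂ)‖ - ‖z‖ ≤ ‖z + ((m + M : ℕ) : ℂ)‖ := by
      have h3 := norm_sub_norm_le ((m + M : ℕ) : ℂ) (-z)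
      rw [norm_neg, sub_neg_eq_add, add_comm ((m + M : ℕ) : ℂ) z] at h3
      exact h3
    rw [Complex.norm_natCast] at h2
    push_cast at h2
    have h4 : (0 : ℝ) ≤ m := Nat.cast_nonneg m
    push_cast
    linarith
  have h2 : (0 : ℝ) < ((m : ℝ) + 1) / 2 := by positivity
  rw [norm_div, norm_one, norm_pow]
  calc 1 / ‖z + ((m + M : ℕ) : ℂ)‖ ^ k ≤ 1 / (((m : ℝ) + 1) / 2) ^ k := by
        apply one_div_le_one_div_of_le (pow_pos h2 k)
        exact pow_le_pow_left₀ h2.le h1 k
    _ = 2 ^ k * (1 / ((m : ℝ) + 1) ^ k) := by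
        rw [div_pow]
        field_simp

theorem summable_u (k : ℕ) (hk : 2 ≤ k) : Summable fun m : ℕ => (2 : ℝ) ^ k * (1 / ((m : ℝ) + 1) ^ k) := by
  apply Summable.mul_left
  have h := (summable_nat_add_iff 1).2 (Real.summable_one_div_nat_pow.2 (show 1 < k by omega))
  refine h.congr fun m => ?_
  push_cast
  rfl

theorem summable_zk (k : ℕ) (hk : 2 ≤ k) (z : ℂ) : Summable fun m : ℕ => 1 / (z + m) ^ k := by
  obtain ⟨M, hM⟩ := exists_nat_ge (2 * ‖z‖ + 1)
  rw [← summable_nat_add_iff M]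
  refine Summable.of_norm_bounded (summable_u k hk) fun m => ?_
  exact tail_bound k z M ‖z‖ le_rfl hM m

theorem zk_add_one (k : ℕ) (hk : 2 ≤ k) (z : ℂ) : zk k (z + 1) = zk k z - 1 / z ^ k := by
  have h := (summable_zk k hk z).tsum_eq_zero_add
  unfold zk
  rw [h]
  simp only [Nat.cast_zero, add_zero, Nat.cast_add, Nat.cast_one]
  have : ∀ m : ℕ, z + 1 + (m : ℂ) = z + (m + 1) := fun m => by ring
  simp only [this]
  ring

theorem zk_an (k : ℕ) (hk : 2 ≤ k) : AnalyticOnNhd ℂ (zk k) Sd := by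
  apply DifferentiableOn.analyticOnNhd _ isOpen_Sd
  intro z0 hz0
  apply DifferentiableAt.differentiableWithinAt
  obtain ⟨M, hM⟩ := exists_nat_ge (2 * (‖z0‖ + 1) + 1)
  set U := Sd ∩ Metric.ball z0 1 with hU
  have hUo : IsOpen U := isOpen_Sd.inter Metric.isOpen_ball
  have hz0U : z0 ∈ U := ⟨hz0, Metric.mem_ball_self one_pos⟩
  have hterm : ∀ m : ℕ, DifferentiableOn ℂ (fun z : ℂ => 1 / (z + m) ^ k) U := by
    intro m z hz
    apply DifferentiableAt.differentiableWithinAt
    have h1 : (z + m) ^ k ≠ 0 := pow_ne_zero _ (add_ne_zero hz.1 m)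
    fun_prop (disch := assumption)
  have htail : DifferentiableOn ℂ (fun z => ∑' m : ℕ, 1 / (z + ((m + M : ℕ) : ℂ)) ^ k) U := by
    refine Complex.differentiableOn_tsum_of_summable_norm (summable_u k hk) (fun m => hterm (m + M)) hUo ?_
    intro m z hz
    refine tail_bound k z M (‖z0‖ + 1) ?_ hM m
    have h1 : ‖z - z0‖ < 1 := by
      have := hz.2
      rwa [Metric.mem_ball, dist_eq_norm] at this
    have h2 := norm_add_le (z - z0) z0
    rw [sub_add_cancel] at h2
    linarith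
  have hhead : DifferentiableOn ℂ (fun z => ∑ m ∈ Finset.range M, 1 / (z + (m : ℂ)) ^ k) U :=
    DifferentiableOn.fun_sum fun m _ => hterm m
  have h1 : DifferentiableOn ℂ (zk k) U := by
    refine (hhead.add htail).congr fun z _ => ?_
    exact ((summable_zk k hk z).sum_add_tsum_nat_add M).symm
  exact h1.differentiableAt (hUo.mem_nhds hz0U)

theorem gamma_an : AnalyticOnNhd ℂ Complex.Gamma Sd :=
  DifferentiableOn.analyticOnNhd
    (fun z hz => (Complex.differentiableAt_Gamma z hz).differentiableWithinAt) isOpen_Sd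

theorem digamma_an : AnalyticOnNhd ℂ Complex.digamma Sd := by
  have h : Complex.digamma = fun z => deriv Complex.Gamma z / Complex.Gamma z := by
    funext z
    rw [Complex.digamma_def, logDeriv_apply]
  rw [h]
  exact gamma_an.deriv.div gamma_an fun z hz => Complex.Gamma_ne_zero hz

/-- the functions `Γ`, `ψ`, `ζ (k, z)`, `2 ≤ k ≤ w` -/
noncomputable def jf {w : ℕ} (i : Option (Fin w)) (z : ℂ) : ℂ :=
  match i with
  | none => Complex.Gamma z
  | some i => if (i : ℕ) = 0 then -Complex.digamma z else zk ((i : ℕ) + 1) z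

theorem jf_an {w : ℕ} (i : Option (Fin w)) : AnalyticOnNhd ℂ (jf i) Sd := by
  rcases i with _ | i
  · exact gamma_an
  · by_cases h : (i : ℕ) = 0
    · have : (jf (some i) : ℂ → ℂ) = fun z => -Complex.digamma z := by
        funext z
        simp only [jf, if_pos h]
      rw [this]
      exact digamma_an.neg
    · have : (jf (some i) : ℂ → ℂ) = zk ((i : ℕ) + 1) := by
        funext z
        simp only [jf, if_neg h]
      rw [this]
      exact zk_an _ (by omega)

theorem jf_some_add_one {w : ℕ} (i : Fin w) {z : ℂ} (hz : z ∈ Sd) :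
    jf (some i) (z + 1) = jf (some i) z + (-(z ^ ((i : ℕ) + 1))⁻¹) := by
  by_cases h : (i : ℕ) = 0
  · simp only [jf, if_pos h]
    rw [Complex.digamma_apply_add_one z hz, h]
    simp
    ring
  · simp only [jf, if_neg h]
    rw [zk_add_one _ (by omega)]
    ring

theorem jf_none_add_one {w : ℕ} {z : ℂ} (hz : z ∈ Sd) :
    jf (none : Option (Fin w)) (z + 1) = z * jf (none : Option (Fin w)) z :=
  Complex.Gamma_add_one z (ne_zero_of_mem hz)

end Pool.Agent.Y456.GJ
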