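import Pool.Agent.Y456.GJ.Abs

set_option autoImplicit false

/-!
# A multiplicative variable over additive ones
-/

open MvPolynomial MonomialOrder

namespace Pool.Agent.Y456.GJ

variable {K : Type*} [Field K] {σ : Type*} [LinearOrder σ] [WellFoundedGT σ] (τ : K →+* K) (b : σ → K)

theorem degree_sh (F : MvPolynomial σ K) : degLex.degree (sh τ b F) = degLex.degree F := by
  classical
  by_cases hF : F = 0
  · rw [hF, map_zero]
  have h1 : (degLex.degree F).degree = F.totalDegree := degree_degLexDegree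
  have h2 : coeff (degLex.degree F) (sh τ b F) = τ (coeff (degLex.degree F) F) :=
    coeff_sh τ b F _ h1.ge
  have h3 : coeff (degLex.degree F) F ≠ 0 := coeff_degree_ne_zero_iff.2 hF
  apply (degLex (σ := σ)).toSyn.injective
  apply le_antisymm
  · rw [degree_le_iff]
    intro β hβ
    rw [mem_support_iff] at hβ
    rcases Nat.lt_or_ge β.degree F.totalDegree with h | h
    · rw [degLex_le_iff]
      apply le_of_lt
      rw [Finsupp.DegLex.lt_iff]
      left
      simpa [h1] using h
    · apply le_degree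
      rw [mem_support_iff]
      intro h0
      rw [coeff_sh τ b F _ h, h0, map_zero] at hβ
      exact hβ rfl
  · apply le_degree
    rw [mem_support_iff, h2]
    exact (map_ne_zero τ).2 h3

theorem leadingCoeff_sh (F : MvPolynomial σ K) :
    degLex.leadingCoeff (sh τ b F) = τ (degLex.leadingCoeff F) := by
  unfold MonomialOrder.leadingCoeff
  rw [degree_sh, coeff_sh τ b F _ (degree_degLexDegree).ge]

/-- the shift of a polynomial in one more, multiplicative, variable -/
noncomputable def shM (a : K) (G : Polynomial (MvPolynomial σ K)) : Polynomial (MvPolynomial σ K) :=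
  (G.map (sh τ b)).comp (Polynomial.C (C a) * Polynomial.X)

omit [LinearOrder σ] [WellFoundedGT σ] in
theorem coeff_shM (a : K) (G : Polynomial (MvPolynomial σ K)) (n : ℕ) :
    (shM τ b a G).coeff n = sh τ b (G.coeff n) * C a ^ n := by
  rw [shM, Polynomial.comp_C_mul_X_coeff, Polynomial.coeff_map]

theorem mult_indep {A : Type*} [CommRing A] (Θ : MvPolynomial σ K →+* A) (hΘ : Function.Injective Θ)
    (T : A →+* A) (hT : ∀ F, T (Θ F) = Θ (sh τ b F)) (a : K) (ha : a ≠ 0) (y : A)
    (hy : T y = Θ (C a) * y) (hreg : ∀ (n : ℕ) (z : A), z * y ^ n = 0 → z = 0)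
    (H : ∀ (v : K) (e : ℕ), v ≠ 0 → τ v = a ^ e * v → e = 0)
    (G : Polynomial (MvPolynomial σ K)) (hG : Polynomial.eval₂ Θ y G = 0) : G = 0 := by
  classical
  by_contra hG0
  have hP : ∃ N : ℕ, ∃ G : Polynomial (MvPolynomial σ K), Polynomial.eval₂ Θ y G = 0 ∧ G ≠ 0 ∧ G.natDegree = N :=
    ⟨_, G, hG, hG0, rfl⟩
  obtain ⟨G, hG, hG0, hGN⟩ := Nat.find_spec hP
  set N := Nat.find hP with hN
  have hmin : ∀ G' : Polynomial (MvPolynomial σ K), Polynomial.eval₂ Θ y G' = 0 → G' ≠ 0 → N ≤ G'.natDegree :=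
    fun G' h1 h2 => Nat.find_min' hP ⟨G', h1, h2, rfl⟩
  have hgN : G.coeff N ≠ 0 := by
    rw [← hGN]
    exact Polynomial.leadingCoeff_ne_zero.2 hG0
  set g := G.coeff N with hg
  have hTG : Polynomial.eval₂ Θ y (shM τ b a G) = 0 := by
    have h1 : T (Polynomial.eval₂ Θ y G) = Polynomial.eval₂ Θ y (shM τ b a G) := by
      rw [Polynomial.hom_eval₂, hy, shM, Polynomial.eval₂_comp, Polynomial.eval₂_map]
      have h2 : T.comp Θ = Θ.comp (sh τ b) := RingHom.ext hT
      rw [h2, Polynomial.eval₂_mul, Polynomial.eval₂_C, Polynomial.eval₂_X]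
    rw [← h1, hG, map_zero]
  set G' := Polynomial.C g * shM τ b a G - Polynomial.C (sh τ b g * C a ^ N) * G with hG'
  have hG'e : Polynomial.eval₂ Θ y G' = 0 := by
    rw [hG', Polynomial.eval₂_sub, Polynomial.eval₂_mul, Polynomial.eval₂_mul, hTG, hG, mul_zero, mul_zero, sub_zero]
  have hG'c : ∀ n, G'.coeff n = g * (sh τ b (G.coeff n) * C a ^ n) - sh τ b g * C a ^ N * G.coeff n := by
    intro n
    rw [hG', Polynomial.coeff_sub, Polynomial.coeff_C_mul, Polynomial.coeff_C_mul, coeff_shM]
  have hG'0 : G' = 0 := by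
    by_contra hne
    have h1 := hmin G' hG'e hne
    have h2 : G'.coeff G'.natDegree ≠ 0 := Polynomial.leadingCoeff_ne_zero.2 hne
    apply h2
    rw [hG'c]
    rcases h1.lt_or_eq with h3 | h3
    · rw [Polynomial.coeff_eq_zero_of_natDegree_lt (hGN.symm ▸ h3 : G.natDegree < G'.natDegree), map_zero]
      ring
    · rw [← h3, ← hg]
      ring
  have hzero : ∀ n, n ≠ N → G.coeff n = 0 := by
    intro n hn
    rcases Nat.lt_or_ge n N with hlt | hge
    swap
    · exact Polynomial.coeff_eq_zero_of_natDegree_lt (by omega)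
    by_contra hne
    have h1 : g * (sh τ b (G.coeff n) * C a ^ n) = sh τ b g * C a ^ N * G.coeff n := by
      have := hG'c n
      rw [hG'0, Polynomial.coeff_zero] at this
      exact (sub_eq_zero.1 this.symm)
    have h2 := congrArg (degLex (σ := σ)).leadingCoeff h1
    rw [MonomialOrder.leadingCoeff_mul, MonomialOrder.leadingCoeff_mul, MonomialOrder.leadingCoeff_mul,
      MonomialOrder.leadingCoeff_mul, leadingCoeff_sh, leadingCoeff_sh, ← C_pow, ← C_pow,
      MonomialOrder.leadingCoeff_C, MonomialOrder.leadingCoeff_C] at h2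
    set p := (degLex (σ := σ)).leadingCoeff g with hp
    set q := (degLex (σ := σ)).leadingCoeff (G.coeff n) with hq
    have hp0 : p ≠ 0 := (degLex (σ := σ)).leadingCoeff_ne_zero_iff.2 hgN
    have hq0 : q ≠ 0 := (degLex (σ := σ)).leadingCoeff_ne_zero_iff.2 hne
    have hτp : τ p ≠ 0 := (map_ne_zero τ).2 hp0
    have h3 : τ (q / p) = a ^ (N - n) * (q / p) := by
      rw [map_div₀]
      have h4 : a ^ N = a ^ (N - n) * a ^ n := by rw [← pow_add, Nat.sub_add_cancel hlt.le]
      rw [h4] at h2
      have h5 : a ^ n ≠ 0 := pow_ne_zero _ ha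
      field_simp
      apply mul_right_cancel₀ h5
      linear_combination h2
    have := H _ _ (div_ne_zero hq0 hp0) h3
    omega
  have h1 : G = Polynomial.monomial N g := by
    ext1 n
    rw [Polynomial.coeff_monomial]
    split_ifs with h
    · rw [← h]
    · exact hzero n (Ne.symm h)
  rw [h1, Polynomial.eval₂_monomial] at hG
  have h2 := hreg _ _ hG
  rw [map_eq_zero_iff Θ hΘ] at h2
  exact hgN h2

end Pool.Agent.Y456.GJ
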