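import Pool.Agent.Y456.GJ.Mult
import Pool.Agent.Y456.GJ.Rat
import Pool.Agent.Y456.GJ.Fun

set_option autoImplicit false

/-!
# Algebraic independence of `Γ`, `ψ`, `ζ (k, z)` over the rational functions
-/

open Filter Topology MvPolynomial

namespace Pool.Agent.Y456.GJ

/-- germs at infinity -/
abbrev Gm : Type := Germ (atTop : Filter ℝ) ℂ

/-- polynomials as germs -/
noncomputable def ph0 : Polynomial ℂ →+* Gm :=
  (Germ.coeRingHom (atTop : Filter ℝ)).comp (RingHom.pi fun t : ℝ => Polynomial.evalRingHom (t : ℂ))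

theorem ph0_apply (p : Polynomial ℂ) : ph0 p = ((fun t : ℝ => p.eval (t : ℂ) : ℝ → ℂ) : Gm) := rfl

theorem ev_ne (p : Polynomial ℂ) (hp : p ≠ 0) : ∀ᶠ t : ℝ in atTop, p.eval (t : ℂ) ≠ 0 := by
  have hfin : {t : ℝ | p.eval (t : ℂ) = 0}.Finite := by
    have h1 : {z : ℂ | p.IsRoot z}.Finite := Polynomial.finite_setOfPred_isRoot hp
    exact h1.preimage (Complex.ofReal_injective.injOn)
  obtain ⟨B, hB⟩ := hfin.bddAbove
  filter_upwards [eventually_gt_atTop B] with t ht h0
  exact absurd (hB h0) (not_le.2 ht)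

theorem isUnit_germ (f : ℝ → ℂ) (hf : ∀ᶠ t : ℝ in atTop, f t ≠ 0) : IsUnit (f : Gm) := by
  refine isUnit_iff_exists_inv.2 ⟨((fun t => (f t)⁻¹ : ℝ → ℂ) : Gm), ?_⟩
  rw [← Germ.coe_mul]
  refine Germ.coe_eq.2 ?_
  filter_upwards [hf] with t ht
  simp [ht]

theorem ph0_unit (p : nonZeroDivisors (Polynomial ℂ)) : IsUnit (ph0 p) := by
  rw [ph0_apply]
  exact isUnit_germ _ (ev_ne p (mem_nonZeroDivisors_iff_ne_zero.1 p.2))

/-- rational functions as germs -/
noncomputable def ph : RatFunc ℂ →+* Gm :=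
  IsLocalization.lift (M := nonZeroDivisors (Polynomial ℂ)) (g := ph0) ph0_unit

theorem ph_alg (p : Polynomial ℂ) : ph (algebraMap (Polynomial ℂ) (RatFunc ℂ) p) = ph0 p :=
  IsLocalization.lift_eq _ _

/-- the shift of germs -/
noncomputable def TT : Gm →+* Gm where
  toFun g := g.compTendsto (fun t : ℝ => t + 1) (tendsto_atTop_add_const_right _ _ tendsto_id)
  map_one' := rfl
  map_zero' := rfl
  map_add' x y := by
    induction x using Germ.inductionOn
    induction y using Germ.inductionOn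
    rfl
  map_mul' x y := by
    induction x using Germ.inductionOn
    induction y using Germ.inductionOn
    rfl

theorem TT_coe (f : ℝ → ℂ) : TT (f : Gm) = ((fun t => f (t + 1) : ℝ → ℂ) : Gm) := rfl

theorem TT_ph (u : RatFunc ℂ) : TT (ph u) = ph (tau u) := by
  have h : TT.comp ph = ph.comp tau := by
    apply IsLocalization.ringHom_ext (nonZeroDivisors (Polynomial ℂ))
    apply RingHom.ext
    intro p
    simp only [RingHom.comp_apply]
    rw [ph_alg, tau_alg, ph_alg, ph0_apply, ph0_apply, TT_coe]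
    congr 1
    funext t
    rw [eval_sp]
    push_cast
    rfl
  exact congrArg (fun g : RatFunc ℂ →+* Gm => g u) h

theorem ph_XX : ph XX = ((fun t : ℝ => (t : ℂ)) : Gm) := by
  rw [XX, ph_alg, ph0_apply]
  congr 1
  funext t
  rw [Polynomial.eval_X]

theorem ph_inv (k : ℕ) : ph ((XX ^ k)⁻¹) = ((fun t : ℝ => ((t : ℂ) ^ k)⁻¹ : ℝ → ℂ) : Gm) := by
  have h1 : ph (XX ^ k) = ((fun t : ℝ => (t : ℂ) ^ k : ℝ → ℂ) : Gm) := by
    rw [map_pow, ph_XX]
    rfl
  have h2 : ph ((XX ^ k)⁻¹) * ph (XX ^ k) = 1 := by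
    rw [← map_mul, inv_mul_cancel₀ (pow_ne_zero _ XX_ne), map_one]
  have h3 : ((fun t : ℝ => ((t : ℂ) ^ k)⁻¹ : ℝ → ℂ) : Gm) * ph (XX ^ k) = 1 := by
    rw [h1, ← Germ.coe_mul]
    refine Germ.coe_eq.2 ?_
    filter_upwards [eventually_gt_atTop (0 : ℝ)] with t ht
    have : (t : ℂ) ^ k ≠ 0 := pow_ne_zero _ (by exact_mod_cast ht.ne')
    simp [this]
  have hu : IsUnit (ph (XX ^ k)) := by
    rw [h1]
    refine isUnit_germ _ ?_
    filter_upwards [eventually_gt_atTop (0 : ℝ)] with t ht
    exact pow_ne_zero _ (by exact_mod_cast ht.ne')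
  exact hu.mul_left_injective (h2.trans h3.symm)

/-- the increments -/
noncomputable def bb (w : ℕ) (i : Fin w) : RatFunc ℂ := -(XX ^ ((i : ℕ) + 1))⁻¹

/-- the functions as germs -/
noncomputable def jg {w : ℕ} (i : Option (Fin w)) : Gm := ((fun t : ℝ => jf i (t : ℂ) : ℝ → ℂ) : Gm)

/-- evaluation of polynomials at the additive functions -/
noncomputable def Th (w : ℕ) : MvPolynomial (Fin w) (RatFunc ℂ) →+* Gm := eval₂Hom ph fun i => jg (some i)

theorem Th_C (w : ℕ) (c : RatFunc ℂ) : Th w (C c) = ph c := by simp [Th]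

theorem Th_X (w : ℕ) (i : Fin w) : Th w (X i) = jg (some i) := by simp [Th]

theorem TT_jg_some {w : ℕ} (i : Fin w) : TT (jg (some i)) = jg (some i) + ph (bb w i) := by
  rw [bb, map_neg, ph_inv, jg, TT_coe]
  have h : ∀ᶠ t : ℝ in atTop, jf (some i) (((t + 1 : ℝ)) : ℂ) =
      jf (some i) (t : ℂ) + (-((t : ℂ) ^ ((i : ℕ) + 1))⁻¹) := by
    filter_upwards [eventually_gt_atTop (0 : ℝ)] with t ht
    have h1 := jf_some_add_one i (real_mem ht)
    push_cast
    exact h1
  exact Germ.coe_eq.2 h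

theorem TT_jg_none {w : ℕ} : TT (jg (none : Option (Fin w))) = ph XX * jg (none : Option (Fin w)) := by
  rw [ph_XX, jg, TT_coe]
  have h : ∀ᶠ t : ℝ in atTop, jf (none : Option (Fin w)) (((t + 1 : ℝ)) : ℂ) =
      (t : ℂ) * jf (none : Option (Fin w)) (t : ℂ) := by
    filter_upwards [eventually_gt_atTop (0 : ℝ)] with t ht
    have h1 := jf_none_add_one (w := w) (real_mem ht)
    push_cast
    exact h1
  exact Germ.coe_eq.2 h

theorem TT_Th (w : ℕ) (F : MvPolynomial (Fin w) (RatFunc ℂ)) : TT (Th w F) = Th w (sh tau (bb w) F) := by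
  have h : TT.comp (Th w) = (Th w).comp (sh tau (bb w)) := by
    apply ringHom_ext
    · intro c
      simp only [RingHom.comp_apply]
      rw [Th_C, sh_C, Th_C, TT_ph]
    · intro i
      simp only [RingHom.comp_apply]
      rw [Th_X, sh_X, map_add, Th_X, Th_C, TT_jg_some]
  exact congrArg (fun g : MvPolynomial (Fin w) (RatFunc ℂ) →+* Gm => g F) h

theorem Th_inj (w : ℕ) : Function.Injective (Th w) := by
  rw [injective_iff_map_eq_zero]
  intro F hF
  refine ideal_bot tau (bb w) (RingHom.ker (Th w)) ?_ ?_ (fun l l0 hl h => H_add w l l0 hl h) F hF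
  · intro G hG
    rw [RingHom.mem_ker] at hG ⊢
    rw [← TT_Th, hG, map_zero]
  · exact RingHom.ker_ne_top _

theorem jg_none_unit {w : ℕ} : IsUnit (jg (none : Option (Fin w))) := by
  refine isUnit_germ _ ?_
  filter_upwards [eventually_gt_atTop (0 : ℝ)] with t ht
  exact Complex.Gamma_ne_zero (real_mem ht)

theorem poly_indep (w : ℕ) (G : Polynomial (MvPolynomial (Fin w) (RatFunc ℂ)))
    (hG : Polynomial.eval₂ (Th w) (jg (none : Option (Fin w))) G = 0) : G = 0 := by
  refine mult_indep tau (bb w) (Th w) (Th_inj w) TT (TT_Th w) XX XX_ne (jg (none : Option (Fin w))) ?_ ?_ ?_ G hG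
  · rw [Th_C]
    exact TT_jg_none
  · intro n z hz
    exact ((jg_none_unit (w := w)).pow n).mul_left_eq_zero.1 hz
  · intro v e hv h
    exact H_mul v e hv h

/-- independence at infinity -/
theorem germ_indep (w : ℕ) (P : MvPolynomial (Option (Option (Fin w))) ℂ)
    (h : ∀ᶠ t : ℝ in atTop, eval (fun o => o.elim (t : ℂ) fun y => jf y (t : ℂ)) P = 0) : P = 0 := by
  set Φ : MvPolynomial (Option (Option (Fin w))) ℂ →+* Polynomial (MvPolynomial (Fin w) (RatFunc ℂ)) :=
    ((optionEquivLeft (RatFunc ℂ) (Fin w)).toRingEquiv.toRingHom).comp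
      ((MvPolynomial.map (algebraMap (Polynomial ℂ) (RatFunc ℂ))).comp
        ((optionEquivRight ℂ (Option (Fin w))).toRingEquiv.toRingHom)) with hΦ
  have hΦi : Function.Injective Φ := by
    rw [hΦ]
    simp only [RingHom.coe_comp]
    refine Function.Injective.comp ?_ (Function.Injective.comp (map_injective _ alg_inj) ?_)
    · exact (optionEquivLeft (RatFunc ℂ) (Fin w)).injective
    · exact (optionEquivRight ℂ (Option (Fin w))).injective
  have key : (Polynomial.eval₂RingHom (Th w) (jg (none : Option (Fin w)))).comp Φ =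
      (Germ.coeRingHom (atTop : Filter ℝ)).comp (RingHom.pi fun t : ℝ =>
        (eval fun o => o.elim (t : ℂ) fun y => jf y (t : ℂ) : MvPolynomial (Option (Option (Fin w))) ℂ →+* ℂ)) := by
    apply ringHom_ext
    · intro c
      simp only [RingHom.comp_apply, hΦ]
      simp only [RingEquiv.toRingHom_eq_coe, RingHom.coe_coe,
        AlgEquiv.coe_ringEquiv, optionEquivRight_C, map_C, optionEquivLeft_C, Polynomial.coe_eval₂RingHom,
        Polynomial.eval₂_C]
      rw [Th_C, ph_alg, ph0_apply]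
      refine congrArg (fun f : ℝ → ℂ => (f : Gm)) ?_
      funext t
      simp
    · intro i
      simp only [RingHom.comp_apply, hΦ]
      rcases i with _ | _ | i
      · simp only [RingEquiv.toRingHom_eq_coe, RingHom.coe_coe,
          AlgEquiv.coe_ringEquiv, optionEquivRight_X_none, map_C, optionEquivLeft_C, Polynomial.coe_eval₂RingHom,
          Polynomial.eval₂_C]
        rw [Th_C, ph_alg, ph0_apply]
        refine congrArg (fun f : ℝ → ℂ => (f : Gm)) ?_
        funext t
        simp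
      · simp only [RingEquiv.toRingHom_eq_coe, RingHom.coe_coe,
          AlgEquiv.coe_ringEquiv, optionEquivRight_X_some, map_X, optionEquivLeft_X_none, Polynomial.coe_eval₂RingHom,
          Polynomial.eval₂_X]
        refine congrArg (fun f : ℝ → ℂ => (f : Gm)) ?_
        funext t
        simp
      · simp only [RingEquiv.toRingHom_eq_coe, RingHom.coe_coe,
          AlgEquiv.coe_ringEquiv, optionEquivRight_X_some, map_X, optionEquivLeft_X_some, Polynomial.coe_eval₂RingHom,
          Polynomial.eval₂_C]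
        rw [Th_X]
        refine congrArg (fun f : ℝ → ℂ => (f : Gm)) ?_
        funext t
        simp
  have h1 : Polynomial.eval₂ (Th w) (jg (none : Option (Fin w))) (Φ P) = 0 := by
    have h2 := congrArg (fun g : MvPolynomial (Option (Option (Fin w))) ℂ →+* Gm => g P) key
    refine h2.trans ?_
    exact Germ.coe_eq.2 h
  have h3 := poly_indep w _ h1
  exact (map_eq_zero_iff Φ hΦi).1 h3

end Pool.Agent.Y456.GJ
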