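import Mathlib

set_option autoImplicit false

/-!
# Algebraic independence of solutions of first order difference equations
-/

open MvPolynomial

namespace Pool.Agent.Y456.GJ

variable {K : Type*} [Field K] {σ : Type*}

/-- the shift on polynomials -/
noncomputable def sh (τ : K →+* K) (b : σ → K) : MvPolynomial σ K →+* MvPolynomial σ K :=
  eval₂Hom (C.comp τ) (fun i => X i + C (b i))

variable (τ : K →+* K) (b : σ → K)

theorem sh_C (c : K) : sh τ b (C c) = C (τ c) := by simp [sh]

theorem sh_X (i : σ) : sh τ b (X i) = X i + C (b i) := by simp [sh]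

theorem coeff_sh_monomial (n : ℕ) : ∀ (α : σ →₀ ℕ), α.degree = n → ∀ β : σ →₀ ℕ, n ≤ β.degree →
    coeff β (sh τ b (monomial α 1)) = coeff β (monomial α (1 : K)) := by
  classical
  induction n with
  | zero =>
    intro α hα β _
    rw [Finsupp.degree_eq_zero_iff] at hα
    subst hα
    have : (monomial (0 : σ →₀ ℕ) (1 : K)) = 1 := rfl
    rw [this, map_one]
  | succ n ih =>
    intro α hα β hβ
    obtain ⟨i, hi⟩ : ∃ i, α i ≠ 0 := by
      by_contra hcon
      push Not at hcon
      have : α = 0 := by
        ext i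
        exact hcon i
      rw [this] at hα
      simp at hα
    set α' := α - Finsupp.single i 1 with hα'
    have h1 : Finsupp.single i 1 + α' = α := by
      rw [hα', add_comm]
      apply tsub_add_cancel_of_le
      rw [Finsupp.single_le_iff]
      omega
    have hdeg : α'.degree = n := by
      have h2 := congrArg Finsupp.degree h1
      rw [map_add, Finsupp.degree_single, hα] at h2
      omega
    have h3 : (monomial α (1 : K)) = X i * monomial α' 1 := by
      rw [← h1, X, monomial_mul, one_mul]
    have hv : coeff β (sh τ b (monomial α' 1)) = 0 := by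
      rw [ih α' hdeg β (by omega), coeff_monomial, if_neg]
      intro h
      rw [← h, hdeg] at hβ
      omega
    rw [h3, map_mul, sh_X, add_mul, coeff_add, coeff_C_mul, hv, mul_zero, add_zero, coeff_X_mul', coeff_X_mul']
    split_ifs with hs
    · have h4 : Finsupp.single i 1 + (β - Finsupp.single i 1) = β := by
        rw [add_comm]
        apply tsub_add_cancel_of_le
        rw [Finsupp.single_le_iff]
        rw [Finsupp.mem_support_iff] at hs
        omega
      have h5 := congrArg Finsupp.degree h4
      rw [map_add, Finsupp.degree_single] at h5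
      exact ih α' hdeg _ (by omega)
    · rfl

theorem degree_le_totalDegree {F : MvPolynomial σ K} {α : σ →₀ ℕ} (h : α ∈ F.support) :
    α.degree ≤ F.totalDegree := le_totalDegree h

theorem coeff_eq_zero_of_lt {F : MvPolynomial σ K} {α : σ →₀ ℕ} (h : F.totalDegree < α.degree) :
    coeff α F = 0 := by
  by_contra hne
  exact absurd (degree_le_totalDegree (mem_support_iff.2 hne)) (not_le.2 h)

theorem coeff_sh (F : MvPolynomial σ K) (β : σ →₀ ℕ) (h : F.totalDegree ≤ β.degree) :
    coeff β (sh τ b F) = τ (coeff β F) := by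
  classical
  conv_lhs => rw [F.as_sum]
  rw [map_sum, coeff_sum]
  have h1 : ∀ α ∈ F.support, coeff β (sh τ b (monomial α (coeff α F))) =
      if α = β then τ (coeff α F) else 0 := by
    intro α hα
    have h2 : monomial α (coeff α F) = C (coeff α F) * monomial α 1 := by rw [C_mul_monomial, mul_one]
    rw [h2, map_mul, sh_C, coeff_C_mul, coeff_sh_monomial τ b α.degree α rfl β
      ((degree_le_totalDegree hα).trans h), coeff_monomial]
    split_ifs <;> simp
  rw [Finset.sum_congr rfl h1, Finset.sum_ite_eq']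
  split_ifs with h3
  · rfl
  · rw [notMem_support_iff] at h3
    rw [h3, map_zero]

theorem totalDegree_le_iff {F : MvPolynomial σ K} {n : ℕ} :
    F.totalDegree ≤ n ↔ ∀ α : σ →₀ ℕ, n < α.degree → coeff α F = 0 := by
  constructor
  · intro h α hα
    exact coeff_eq_zero_of_lt (h.trans_lt hα)
  · intro h
    rw [totalDegree, Finset.sup_le_iff]
    intro α hα
    by_contra hlt
    exact mem_support_iff.1 hα (h α (not_le.1 hlt))

theorem totalDegree_sh_le (F : MvPolynomial σ K) : (sh τ b F).totalDegree ≤ F.totalDegree := by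
  rw [totalDegree_le_iff]
  intro α hα
  rw [coeff_sh τ b F α hα.le, coeff_eq_zero_of_lt hα, map_zero]

theorem exists_top {F : MvPolynomial σ K} (hF : F ≠ 0) : ∃ α, coeff α F ≠ 0 ∧ α.degree = F.totalDegree := by
  obtain ⟨α, hα, h⟩ := Finset.exists_mem_eq_sup F.support (support_nonempty.2 hF)
    (fun s : σ →₀ ℕ => s.sum fun _ e => e)
  exact ⟨α, mem_support_iff.1 hα, h.symm⟩

/-- an invariant element of an invariant ideal -/
theorem exists_inv (I : Ideal (MvPolynomial σ K)) (hI : ∀ F ∈ I, sh τ b F ∈ I) (hne : ∃ F ∈ I, F ≠ 0) :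
    ∃ F ∈ I, F ≠ 0 ∧ sh τ b F = F := by
  classical
  have hP : ∃ d : ℕ, ∃ F ∈ I, F ≠ 0 ∧ F.totalDegree = d := by
    obtain ⟨F, h1, h2⟩ := hne
    exact ⟨_, F, h1, h2, rfl⟩
  set d := Nat.find hP with hd
  have hmin : ∀ F ∈ I, F ≠ 0 → d ≤ F.totalDegree := fun F h1 h2 => Nat.find_min' hP ⟨F, h1, h2, rfl⟩
  have hQ : ∃ N : ℕ, ∃ F ∈ I, F ≠ 0 ∧ F.totalDegree = d ∧
      (F.support.filter fun α => α.degree = d).card = N := by
    obtain ⟨F, h1, h2, h3⟩ := Nat.find_spec hP
    exact ⟨_, F, h1, h2, h3, rfl⟩
  obtain ⟨F, hF, hF0, hFd, hFN⟩ := Nat.find_spec hQ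
  have hmin2 : ∀ G ∈ I, G ≠ 0 → G.totalDegree = d →
      (F.support.filter fun α => α.degree = d).card ≤ (G.support.filter fun α => α.degree = d).card := by
    intro G h1 h2 h3
    rw [hFN]
    exact Nat.find_min' hQ ⟨G, h1, h2, h3, rfl⟩
  obtain ⟨α, hα, hαd⟩ := exists_top hF0
  set c := coeff α F with hc
  set F' := C c⁻¹ * F with hF'
  have hF'I : F' ∈ I := I.mul_mem_left _ hF
  have hco : ∀ β, coeff β F' = c⁻¹ * coeff β F := fun β => by rw [hF', coeff_C_mul]
  have hF'd : F'.totalDegree ≤ d := by
    rw [totalDegree_le_iff]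
    intro β hβ
    rw [hco, coeff_eq_zero_of_lt (hFd ▸ hβ), mul_zero]
  have hF'0 : F' ≠ 0 := by
    rw [hF']
    exact mul_ne_zero (by simpa using hα) hF0
  refine ⟨F', hF'I, hF'0, ?_⟩
  by_contra hne'
  set G := sh τ b F' - F' with hG
  have hG0 : G ≠ 0 := sub_ne_zero.2 hne'
  have hGI : G ∈ I := I.sub_mem (hI _ hF'I) hF'I
  have hGc : ∀ β : σ →₀ ℕ, d ≤ β.degree → coeff β G = τ (coeff β F') - coeff β F' := by
    intro β hβ
    rw [hG, coeff_sub, coeff_sh τ b F' β (hF'd.trans hβ)]
  have hGd : G.totalDegree = d := by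
    apply le_antisymm _ (hmin G hGI hG0)
    rw [totalDegree_le_iff]
    intro β hβ
    rw [hGc β hβ.le, coeff_eq_zero_of_lt (hF'd.trans_lt hβ), map_zero, sub_zero]
  have h1 := hmin2 G hGI hG0 hGd
  have h2 : (G.support.filter fun α => α.degree = d) ⊂ (F.support.filter fun α => α.degree = d) := by
    rw [Finset.ssubset_iff_of_subset]
    · refine ⟨α, ?_, ?_⟩
      · rw [Finset.mem_filter, mem_support_iff]
        exact ⟨hα, hαd.trans hFd⟩
      · rw [Finset.mem_filter, mem_support_iff]
        rintro ⟨h3, h4⟩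
        apply h3
        rw [hGc α h4.ge, hco, ← hc, inv_mul_cancel₀ hα, map_one, sub_self]
    · intro β hβ
      rw [Finset.mem_filter, mem_support_iff] at hβ ⊢
      refine ⟨fun h3 => hβ.1 ?_, hβ.2⟩
      rw [hGc β hβ.2.ge, hco, h3, mul_zero, map_zero, sub_zero]
  exact absurd (Finset.card_lt_card h2) (not_lt.2 h1)

theorem pderiv_sh (i : σ) (F : MvPolynomial σ K) : pderiv i (sh τ b F) = sh τ b (pderiv i F) := by
  classical
  induction F using MvPolynomial.induction_on with
  | C a => rw [sh_C, pderiv_C, pderiv_C, map_zero]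
  | add p q hp hq => rw [map_add, map_add, map_add, map_add, hp, hq]
  | mul_X p j hp =>
    rw [map_mul, pderiv_mul, pderiv_mul, map_add, map_mul, map_mul, hp, sh_X, map_add, pderiv_C, add_zero]
    congr 2
    rw [pderiv_X, Pi.single_apply]
    split_ifs
    · rw [map_one]
    · rw [map_zero]

/-- an invariant polynomial of total degree one -/
theorem exists_linear [CharZero K] (F : MvPolynomial σ K) (hF : sh τ b F = F) (h0 : F.totalDegree ≠ 0) :
    ∃ L : MvPolynomial σ K, L.totalDegree = 1 ∧ sh τ b L = L := by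
  classical
  induction hd : F.totalDegree using Nat.strong_induction_on generalizing F with
  | _ d ih =>
    rcases Nat.lt_or_ge 1 d with h1 | h1
    swap
    · exact ⟨F, by omega, hF⟩
    have hF0 : F ≠ 0 := by
      rintro rfl
      simp at h0
    obtain ⟨α, hα, hαd⟩ := exists_top hF0
    obtain ⟨i, hi⟩ : ∃ i, α i ≠ 0 := by
      by_contra hcon
      push Not at hcon
      have : α = 0 := by
        ext i
        exact hcon i
      rw [this] at hαd
      simp at hαd
      omega
    set α' := α - Finsupp.single i 1 with hα'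
    have h2 : α' + Finsupp.single i 1 = α := by
      rw [hα']
      apply tsub_add_cancel_of_le
      rw [Finsupp.single_le_iff]
      omega
    have h3 := congrArg Finsupp.degree h2
    rw [map_add, Finsupp.degree_single, hαd, hd] at h3
    have h4 : coeff α' (pderiv i F) ≠ 0 := by
      rw [coeff_pderiv, h2]
      refine mul_ne_zero hα ?_
      exact_mod_cast Nat.succ_ne_zero (α' i)
    have h5 : (pderiv i F).totalDegree ≤ d - 1 := by
      rw [totalDegree_le_iff]
      intro β hβ
      rw [coeff_pderiv, coeff_eq_zero_of_lt, zero_mul]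
      rw [map_add, Finsupp.degree_single, hd]
      omega
    have h6 : d - 1 ≤ (pderiv i F).totalDegree := by
      by_contra hlt
      exact h4 (coeff_eq_zero_of_lt (by omega))
    refine ih (d - 1) (by omega) (pderiv i F) ?_ (by omega) (by omega)
    rw [← pderiv_sh, hF]

theorem constCoeff_sh (F : MvPolynomial σ K) : coeff 0 (sh τ b F) = eval₂ τ b F := by
  have : (constantCoeff.comp (sh τ b) : MvPolynomial σ K →+* K) = eval₂Hom τ b := by
    apply ringHom_ext
    · intro r
      simp [sh_C]
    · intro i
      simp [sh_X]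
  exact congrArg (fun g : MvPolynomial σ K →+* K => g F) this

theorem linear_form [Fintype σ] (L : MvPolynomial σ K) (hL : L.totalDegree ≤ 1) :
    L = C (coeff 0 L) + ∑ i, C (coeff (Finsupp.single i 1) L) * X i := by
  classical
  ext β
  rw [coeff_add, coeff_C, coeff_sum]
  rcases Nat.lt_trichotomy β.degree 1 with h | h | h
  · have : β = 0 := by
      rw [← Finsupp.degree_eq_zero_iff]
      omega
    subst this
    simp
  · obtain ⟨i, hi⟩ : ∃ i, β i ≠ 0 := by
      by_contra hcon
      push Not at hcon
      have : β = 0 := by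
        ext i
        exact hcon i
      rw [this] at h
      simp at h
    have hβ : β = Finsupp.single i 1 := by
      have h2 : β - Finsupp.single i 1 + Finsupp.single i 1 = β := by
        apply tsub_add_cancel_of_le
        rw [Finsupp.single_le_iff]
        omega
      have h3 := congrArg Finsupp.degree h2
      rw [map_add, Finsupp.degree_single, h] at h3
      have h4 : (β - Finsupp.single i 1).degree = 0 := by omega
      rw [Finsupp.degree_eq_zero_iff] at h4
      rw [← h2, h4, zero_add]
    subst hβ
    have hne : (0 : σ →₀ ℕ) ≠ Finsupp.single i 1 := by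
      intro h5
      have := congrArg (fun f => f i) h5
      simp at this
    rw [if_neg hne, zero_add, Finset.sum_eq_single i]
    · simp
    · intro j _ hj
      rw [coeff_C_mul, coeff_X, if_neg, mul_zero]
      intro h6
      rw [Finsupp.single_left_inj one_ne_zero] at h6
      exact hj h6
    · simp
  · rw [coeff_eq_zero_of_lt (hL.trans_lt h), if_neg, zero_add, Finset.sum_eq_zero]
    · intro j _
      rw [coeff_C_mul, coeff_X, if_neg, mul_zero]
      intro h6
      rw [← h6, Finsupp.degree_single] at h
      omega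
    · rintro rfl
      simp at h

/-- invariant ideals are trivial -/
theorem ideal_bot [Fintype σ] [CharZero K] (I : Ideal (MvPolynomial σ K)) (hI : ∀ F ∈ I, sh τ b F ∈ I)
    (hI1 : I ≠ ⊤) (H : ∀ (l : σ → K) (l0 : K), (∀ i, τ (l i) = l i) → τ l0 + ∑ i, l i * b i = l0 → l = 0)
    (F : MvPolynomial σ K) (hF : F ∈ I) : F = 0 := by
  classical
  by_contra hne
  obtain ⟨F, hF, hF0, hinv⟩ := exists_inv τ b I hI ⟨F, hF, hne⟩
  have hd : F.totalDegree ≠ 0 := by
    intro hd
    rw [totalDegree_eq_zero_iff_eq_C] at hd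
    have hc : coeff 0 F ≠ 0 := by
      intro h
      rw [h, map_zero] at hd
      exact hF0 hd
    apply hI1
    rw [Ideal.eq_top_iff_one]
    have h1 := I.mul_mem_left (C (coeff 0 F)⁻¹) hF
    rw [hd, coeff_C] at h1
    simp only [if_true] at h1
    rwa [← map_mul, inv_mul_cancel₀ hc, map_one] at h1
  obtain ⟨L, hL1, hL⟩ := exists_linear τ b F hinv hd
  have h1 : ∀ i, τ (coeff (Finsupp.single i 1) L) = coeff (Finsupp.single i 1) L := by
    intro i
    rw [← coeff_sh τ b L _ (by rw [hL1, Finsupp.degree_single]), hL]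
  have h2 : τ (coeff 0 L) + ∑ i, coeff (Finsupp.single i 1) L * b i = coeff 0 L := by
    have h3 := constCoeff_sh τ b L
    rw [hL] at h3
    conv_rhs => rw [h3, linear_form L hL1.le]
    simp only [← coe_eval₂Hom, map_add, map_sum, map_mul, eval₂Hom_C, eval₂Hom_X', h1]
  have h3 : (fun i => coeff (Finsupp.single i 1) L) = 0 := H _ _ h1 h2
  have h4 := linear_form L hL1.le
  have h5 : L = C (coeff 0 L) := by
    conv_lhs => rw [h4]
    have : ∀ i, coeff (Finsupp.single i 1) L = 0 := fun i => congrFun h3 i
    simp [this]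
  rw [h5, totalDegree_C] at hL1
  exact absurd hL1 (by norm_num)

end Pool.Agent.Y456.GJ
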