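import Pool.Agent.Y456.GJ.Germ
import Pool.Agent.Y124.NFPoly

set_option autoImplicit false

/-!
# The jet of the logarithm of the Gamma function at points of number fields
-/

open Filter Topology MvPolynomial NumberField

namespace Pool.Agent.Y456.GJ

open Pool.Agent.Y120 (HtLe)

theorem eval_an (w : ℕ) (P : MvPolynomial (Option (Option (Fin w))) ℂ) :
    AnalyticOnNhd ℂ (fun z : ℂ => eval (fun o => o.elim z fun y => jf y z) P) Sd := by
  induction P using MvPolynomial.induction_on with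
  | C a =>
    simp only [eval_C]
    exact analyticOnNhd_const
  | add p q hp hq =>
    simp only [map_add]
    exact hp.add hq
  | mul_X p i hp =>
    simp only [map_mul, eval_X]
    refine hp.mul ?_
    rcases i with _ | y
    · exact analyticOnNhd_id
    · exact jf_an y

/-- independence near every point -/
theorem locInd_jf (w : ℕ) {t0 : ℂ} (ht0 : t0 ∈ Sd) :
    Pool.Agent.Y124.LocInd (𝕜 := ℂ) (fun i : Option (Fin w) => jf i) t0 := by
  intro P hP
  apply germ_indep w P
  have h1 := (eval_an w P).eqOn_zero_of_preconnected_of_eventuallyEq_zero isPreconnected_Sd ht0 hP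
  filter_upwards [eventually_gt_atTop (0 : ℝ)] with t ht
  exact h1 (real_mem ht)

theorem main {h : Type} [Fintype h] (m n d w : ℕ) (L : Set ℂ) (hL : IsCompact L) (hL' : L ⊆ Sd) (A ε : ℝ)
    (hε : 0 < ε) :
    ∃ B C T₀ : ℝ, 0 ≤ C ∧ 2 ≤ T₀ ∧ ∀ (K : Type) [Field K] [NumberField K], Module.finrank ℚ K ≤ m → ∀ (io : K →+* ℂ)
      (ξ : h → ℂ) (T : ℝ), T₀ ≤ T →
      (Pool.Agent.Y124.ExcNF n d K io ξ (fun t (i : Option (Fin w)) => jf i t) L A B T).Finite ∧
      ((Pool.Agent.Y124.ExcNF n d K io ξ (fun t (i : Option (Fin w)) => jf i t) L A B T).ncard : ℝ) ≤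
        C * T ^ ε * (({x : K | HtLe K T x ∧ io x ∈ L}.ncard : ℝ)) ^ (n - 1) :=
  Pool.Agent.Y124.excNF m n d _ L (fun g => Pool.Agent.Y124.oneV_of g (fun i : Option (Fin w) => jf i) L hL
    (fun i t ht => jf_an i t (hL' ht)) fun t ht => locInd_jf w (hL' ht)) A ε hε

end Pool.Agent.Y456.GJ
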